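import Pool.Agent.helper96.PP2.SpecB

/-!
# Row EXI: existence and uniqueness of the element with given traceless part
-/

set_option autoImplicit false

namespace Pool.Agent.PP2

open Topology Matrix

theorem EXI_row (hSQR : SQR_stmt) (hSQU : SQU_stmt) : EXI_stmt := by
  intro p R _ _ _ _ _ _ J hp hp2 hS
  refine ⟨?_, ?_⟩
  · intro X hX hent
    have hu : ⅟(2 : R) * Bf X X ∈ J := by
      apply J.mul_mem_left
      rw [Lib_Bf]
      exact J.add_mem (J.add_mem (J.mul_mem_right _ (hent 0 0)) (J.mul_mem_right _ (hent 0 1)))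
        (J.add_mem (J.mul_mem_right _ (hent 1 0)) (J.mul_mem_right _ (hent 1 1)))
    obtain ⟨c, hc, hsq, -⟩ := hSQR p R J hp hp2 hS _ hu
    have hXX := Lib_sq X hX
    have k1 : ((1 + c) • (1 : M2 R) + X) * ((1 + c) • (1 : M2 R) - X) = 1 := by
      rw [add_mul, mul_sub, mul_sub, hXX]
      simp only [Matrix.smul_mul, Matrix.mul_smul, one_mul, mul_one]
      rw [smul_smul, ← pow_two, hsq, add_smul, one_smul]
      abel
    have k2 : ((1 + c) • (1 : M2 R) - X) * ((1 + c) • (1 : M2 R) + X) = 1 := by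
      rw [sub_mul, mul_add, mul_add, hXX]
      simp only [Matrix.smul_mul, Matrix.mul_smul, one_mul, mul_one]
      rw [smul_smul, ← pow_two, hsq, add_smul, one_smul]
      abel
    refine ⟨⟨(1 + c) • (1 : M2 R) + X, (1 + c) • (1 : M2 R) - X, k1, k2⟩, ?_, ?_⟩
    · rw [Lib_mem_Sg]
      refine ⟨?_, ?_⟩
      · have hh := Lib_half (R := R)
        have h1 := hX
        rw [Matrix.trace_fin_two] at h1
        rw [Lib_Bf] at hsq
        rw [Matrix.det_fin_two]
        simp only [Matrix.add_apply, Matrix.smul_apply, smul_eq_mul, Matrix.one_apply_eq]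
        have o1 : (1 : M2 R) 0 1 = 0 := by simp
        have o2 : (1 : M2 R) 1 0 = 0 := by simp
        rw [o1, o2]
        have h2 : X 1 1 = -X 0 0 := by linear_combination h1
        rw [h2] at hsq ⊢
        linear_combination hsq + (X 0 0 * X 0 0 + X 0 1 * X 1 0) * hh
      · intro i j
        have e : (((1 + c) • (1 : M2 R) + X) - 1) i j = c * (1 : M2 R) i j + X i j := by
          simp only [Matrix.sub_apply, Matrix.add_apply, Matrix.smul_apply, smul_eq_mul]
          ring
        change (((1 + c) • (1 : M2 R) + X) - 1) i j ∈ J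
        rw [e]
        exact J.add_mem (J.mul_mem_right _ hc) (hent i j)
    · change Th ((1 + c) • (1 : M2 R) + X) = X
      rw [Lib_Th_add, Lib_Th_smul, Lib_Th_one, smul_zero, zero_add, Lib_Th_of_trace X hX]
  · intro g hg h hh he
    have e1 := Lib_ht_sq J g hg
    have e2 := Lib_ht_sq J h hh
    have e3 : ht g ^ 2 = ht h ^ 2 := by rw [e1, e2, he]
    have e4 : (1 + (ht g - 1)) ^ 2 = (1 + (ht h - 1)) ^ 2 := by
      rw [add_sub_cancel, add_sub_cancel, e3]
    have e5 := (hSQU p R J hp hp2 hS).2 _ (Lib_ht_sub_one J g hg) _ (Lib_ht_sub_one J h hh) e4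
    have e6 : ht g = ht h := by linear_combination e5
    apply Units.ext
    rw [Lib_decomp g, Lib_decomp h, e6, he]

end Pool.Agent.PP2
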