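import Pool.Agent.helper96.PP2.SpecC

/-!
# Row QTR: the quotient in which `p` is topologically nilpotent
-/

set_option autoImplicit false

namespace Pool.Agent.PP2

open Topology Matrix

theorem QTR_row : QTR_stmt := by
  intro p R _ _ _ _ _ hb
  obtain ⟨I0, hI0d⟩ : ∃ I0 : Ideal R, I0 = ⨅ n : ℕ, Ideal.span {(p : R) ^ n} := ⟨_, rfl⟩
  have hcl : ∀ n : ℕ, IsClosed ((Ideal.span {(p : R) ^ n} : Ideal R) : Set R) := by
    intro n
    have e : ((Ideal.span {(p : R) ^ n} : Ideal R) : Set R)
        = Set.range (fun x : R => x * (p : R) ^ n) := by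
      ext x
      simp only [SetLike.mem_coe, Ideal.mem_span_singleton', Set.mem_range]
    rw [e]
    exact (isCompact_range (continuous_id.mul continuous_const)).isClosed
  have hI0s : ((I0 : Ideal R) : Set R)
      = ⋂ n : ℕ, ((Ideal.span {(p : R) ^ n} : Ideal R) : Set R) := by
    rw [hI0d]
    exact Submodule.coe_iInf _
  have hI0 : IsClosed ((I0 : Ideal R) : Set R) := by
    rw [hI0s]
    exact isClosed_iInter hcl
  have hcont : Continuous (Ideal.Quotient.mk I0) := continuous_quot_mk
  refine ⟨R ⧸ I0, inferInstance, inferInstance, Ideal.Quotient.mk I0, inferInstance, inferInstance,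
    ?_, hcont, Ideal.Quotient.mk_surjective, ?_, ?_, ?_⟩
  · have : IsClosed ((I0.toAddSubgroup : AddSubgroup R) : Set R) := hI0
    have : T3Space (R ⧸ I0.toAddSubgroup) := QuotientAddGroup.instT3Space _
    exact (inferInstance : T2Space (R ⧸ I0.toAddSubgroup))
  · intro x
    rw [Ideal.Quotient.eq_zero_iff_mem]
    constructor
    · intro h n
      have h1 : x ∈ ((I0 : Ideal R) : Set R) := h
      rw [hI0s, Set.mem_iInter] at h1
      exact h1 n
    · intro h
      have h1 : x ∈ ((I0 : Ideal R) : Set R) := by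
        rw [hI0s, Set.mem_iInter]
        exact h
      exact h1
  · intro U hU
    have hU' : (Ideal.Quotient.mk I0) ⁻¹' U ∈ 𝓝 (0 : R) := by
      apply hcont.continuousAt
      rw [map_zero]
      exact hU
    obtain ⟨I, hI, hIU⟩ := hb _ hU'
    have e : ((I.map (Ideal.Quotient.mk I0) : Ideal (R ⧸ I0)) : Set (R ⧸ I0))
        = (Ideal.Quotient.mk I0) '' (I : Set R) := by
      ext y
      rw [SetLike.mem_coe, Ideal.mem_map_iff_of_surjective _ Ideal.Quotient.mk_surjective]
      rfl
    refine ⟨I.map (Ideal.Quotient.mk I0), ?_, ?_⟩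
    · rw [e]
      exact QuotientRing.isOpenMap_coe I0 _ hI
    · rw [e]
      rintro _ ⟨x, hx, rfl⟩
      exact hIU hx
  · intro I hI
    have hop : IsOpen (((I.comap (Ideal.Quotient.mk I0) : Ideal R)) : Set R) := hI.preimage hcont
    have hdir : Directed (· ⊇ ·) (fun n : ℕ => ((Ideal.span {(p : R) ^ n} : Ideal R) : Set R)) := by
      intro a b
      refine ⟨max a b, ?_, ?_⟩
      · intro x hx
        rw [SetLike.mem_coe, Ideal.mem_span_singleton] at hx ⊢
        exact (pow_dvd_pow _ (le_max_left a b)).trans hx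
      · intro x hx
        rw [SetLike.mem_coe, Ideal.mem_span_singleton] at hx ⊢
        exact (pow_dvd_pow _ (le_max_right a b)).trans hx
    obtain ⟨n, hn⟩ := exists_subset_nhds_of_isCompact hdir (fun n => (hcl n).isCompact)
      (U := (((I.comap (Ideal.Quotient.mk I0) : Ideal R)) : Set R)) (by
        intro x hx
        apply hop.mem_nhds
        have hx0 : x ∈ ((I0 : Ideal R) : Set R) := by rw [hI0s]; exact hx
        have hx1 : Ideal.Quotient.mk I0 x = 0 := Ideal.Quotient.eq_zero_iff_mem.2 hx0
        rw [SetLike.mem_coe, Ideal.mem_comap, hx1]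
        exact I.zero_mem)
    refine ⟨n, ?_⟩
    have h1 : (p : R) ^ n ∈ ((Ideal.span {(p : R) ^ n} : Ideal R) : Set R) :=
      Ideal.mem_span_singleton_self _
    have h2 := hn h1
    rw [SetLike.mem_coe, Ideal.mem_comap, map_pow, map_natCast] at h2
    exact h2

end Pool.Agent.PP2
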